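import Mathlib
import Pool.Agent.Y667.QK.StmR
import Pool.Agent.TH111.J3097

/-!
QK-DEG: the degree of the multiquadratic field.
-/

set_option autoImplicit false

namespace Pool.Agent.Y388.QK

open Finset Pool.Agent.Y667.QK

/-- a product of distinct primes in pairs is not a square -/
theorem not_sq {m : ℕ} (q q' : Fin m → ℕ) (hq : ∀ j, (q j).Prime) (hq' : ∀ j, (q' j).Prime)
    (hi : Function.Injective q) (hqq : ∀ i j, q i ≠ q' j)
    (S : Finset (Fin m)) (hS : S.Nonempty) : ¬ IsSquare (∏ i ∈ S, ((q i * q' i : ℕ) : ℚ)) := by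
  intro h
  rw [← Nat.cast_prod, Rat.isSquare_natCast_iff] at h
  obtain ⟨r, hr⟩ := h
  obtain ⟨i₀, hi₀⟩ := hS
  have hp := hq i₀
  rw [← mul_prod_erase S _ hi₀] at hr
  have hdr : q i₀ ∣ r := by
    have h1 : q i₀ ∣ r * r := by
      rw [← hr, mul_assoc]
      exact dvd_mul_right _ _
    rcases hp.dvd_mul.1 h1 with h2 | h2 <;> exact h2
  obtain ⟨t, ht⟩ := hdr
  rw [ht, mul_assoc, show q i₀ * t * (q i₀ * t) = q i₀ * (q i₀ * (t * t)) by ring] at hr
  have h3 := Nat.eq_of_mul_eq_mul_left hp.pos hr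
  have h4 : q i₀ ∣ q' i₀ * ∏ x ∈ S.erase i₀, (q x * q' x) := by
    rw [h3]; exact dvd_mul_right _ _
  rcases hp.dvd_mul.1 h4 with h5 | h5
  · exact hqq i₀ i₀ ((Nat.prime_dvd_prime_iff_eq hp (hq' i₀)).1 h5)
  · obtain ⟨x, hx, h6⟩ := (Prime.dvd_finsetProd_iff hp.prime _).1 h5
    rcases hp.dvd_mul.1 h6 with h7 | h7
    · exact (mem_erase.1 hx).1 (hi ((Nat.prime_dvd_prime_iff_eq hp (hq x)).1 h7)).symm
    · exact hqq i₀ x ((Nat.prime_dvd_prime_iff_eq hp (hq' x)).1 h7)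

theorem DEG : St_DEG := by
  classical
  intro m q q' hq hq' hi _ hqq F _ _ hF
  obtain ⟨x, hx, htop⟩ := hF
  have h1 := Pool.Agent.TH111.J3097.finrank_mq' (V := ℚ) (Ω := F) (η := x)
    (w := fun i => ((q i * q' i : ℕ) : ℚ)) two_ne_zero
    (by
      intro i
      rw [hx i, map_natCast]
      push_cast
      rfl)
    (fun S hS => not_sq q q' hq hq' hi hqq S hS)
  rw [htop, IntermediateField.finrank_top', Fintype.card_fin] at h1
  exact h1

end Pool.Agent.Y388.QK
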