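import Mathlib
import Pool.Agent.Y667.QK.StmR

/-!
QK-FLIP, QK-PRM: the class `β` and primes which are squares modulo each other.
-/

set_option autoImplicit false

namespace Pool.Agent.Y388.QK

open Finset Pool.Agent.Y667.QK

theorem FLIP : St_FLIP := by
  intro f hf h8
  have : Fact f.Prime := ⟨hf⟩
  have hf2 : f ≠ 2 := by rintro rfl; omega
  have hex : ∃ n : ℕ, jacobiSym n f = -1 := by
    have hchar : ringChar (ZMod f) ≠ 2 := by
      rw [ZMod.ringChar_zmod_n]; exact hf2
    obtain ⟨a, ha⟩ := FiniteField.exists_nonsquare hchar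
    refine ⟨a.val, ?_⟩
    rw [← jacobiSym.legendreSym.to_jacobiSym, legendreSym.eq_neg_one_iff]
    rw [show (((a.val : ℕ) : ℤ) : ZMod f) = a by rw [Int.cast_natCast, ZMod.natCast_zmod_val]]
    exact ha
  classical
  set n := Nat.find hex with hn
  have hn1 : jacobiSym n f = -1 := Nat.find_spec hex
  have hmin : ∀ m : ℕ, m < n → jacobiSym m f ≠ -1 := fun m hm => Nat.find_min hex hm
  have h2 : 2 ≤ n := by
    by_contra h
    have h3 : n = 0 ∨ n = 1 := by omega
    rcases h3 with h3 | h3
    · rw [h3] at hn1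
      rw [Nat.cast_zero, jacobiSym.zero_left hf.one_lt] at hn1
      norm_num at hn1
    · rw [h3] at hn1
      rw [Nat.cast_one, jacobiSym.one_left] at hn1
      norm_num at hn1
  have hlt : n < f := by
    by_contra h
    push Not at h
    have h3 : n % f < f := Nat.mod_lt _ hf.pos
    apply hmin (n % f) (by omega)
    rw [← hn1, jacobiSym.mod_left' (a₁ := ((n % f : ℕ) : ℤ)) (a₂ := (n : ℤ))]
    push_cast
    rw [Int.emod_emod_of_dvd _ dvd_rfl]
  have hpred : jacobiSym ((n - 1 : ℕ) : ℤ) f = 1 := by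
    have h3 : Int.gcd ((n - 1 : ℕ) : ℤ) f = 1 := by
      rw [Int.gcd_natCast_natCast]
      refine ((Nat.Prime.coprime_iff_not_dvd hf).2 fun hd => ?_).symm
      have := Nat.le_of_dvd (by omega) hd
      omega
    rcases jacobiSym.eq_one_or_neg_one h3 with h4 | h4
    · exact h4
    · exact absurd h4 (hmin (n - 1) (by omega))
  refine ⟨f + 1 - n, hf, h8, by omega, ?_, ?_⟩
  · have e1 : jacobiSym ((f + 1 - n : ℕ) : ℤ) f = jacobiSym (-((n - 1 : ℕ) : ℤ)) f := by
      apply jacobiSym.mod_left'
      have e2 : ((f + 1 - n : ℕ) : ℤ) = -((n - 1 : ℕ) : ℤ) + f := by omega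
      rw [e2, Int.add_emod_right]
    rw [e1, jacobiSym.neg _ (hf.odd_of_ne_two hf2), hpred, mul_one, ZMod.χ₄_nat_one_mod_four (by omega)]
  · have e1 : jacobiSym (1 - ((f + 1 - n : ℕ) : ℤ)) f = jacobiSym (n : ℤ) f := by
      apply jacobiSym.mod_left'
      have e2 : 1 - ((f + 1 - n : ℕ) : ℤ) = (n : ℤ) - f := by omega
      rw [e2, Int.sub_emod_right]
    rw [e1, hn1]

theorem PRM : St_PRM := by
  intro f hf h8 k z
  induction k with
  | zero =>
    intro ε hε
    refine ⟨fun i => i.elim0, fun i => i.elim0, fun i => i.elim0, fun i => i.elim0, ?_, ?_⟩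
    · rw [Fin.prod_univ_zero, mul_one]
      refine ⟨hf.squarefree, ?_, ?_⟩
      · intro q hq
        rw [hf.primeFactors, mem_singleton] at hq
        rw [hq]; exact h8
      · intro q hq q' hq' hne
        rw [hf.primeFactors, mem_singleton] at hq hq'
        exact absurd (hq.trans hq'.symm) hne
    · rw [Fin.sum_univ_zero]; exact hε.le
  | succ k ih =>
    intro ε hε
    obtain ⟨p, hinj, hp, hz, hAd, hsum⟩ := ih (ε / 2) (by positivity)
    set N := f * ∏ i, p i with hN
    have hN0 : 0 < N := by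
      rw [hN]
      exact Nat.mul_pos hf.pos (prod_pos fun i _ => (hp i).pos)
    obtain ⟨q, hqp, hqgt, hqmod⟩ := Nat.exists_prime_gt_modEq_one
      (k := 8 * N) (z + N + ⌈2 / ε⌉₊) (by omega)
    have hq8 : q % 8 = 1 := by
      have h1 : q ≡ 1 [MOD 8] := hqmod.of_mul_right N
      have h2 : q % 8 = 1 % 8 := h1
      omega
    have hqN : q ≡ 1 [MOD N] := hqmod.of_mul_left 8
    have hqndvd : ¬ q ∣ N := fun hd => by
      have := Nat.le_of_dvd hN0 hd
      omega
    have hcop : q.Coprime N := (Nat.Prime.coprime_iff_not_dvd hqp).2 hqndvd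
    have hpdvd : ∀ i, p i ∣ N := fun i => (dvd_prod_of_mem p (mem_univ i)).mul_left f
    refine ⟨Fin.cons q p, ?_, ?_, ?_, ?_, ?_⟩
    · rw [Fin.cons_injective_iff]
      refine ⟨?_, hinj⟩
      rintro ⟨i, hi⟩
      exact hqndvd (hi ▸ hpdvd i)
    · intro i
      refine Fin.cases ?_ (fun j => ?_) i
      · exact hqp
      · exact hp j
    · intro i
      refine Fin.cases ?_ (fun j => ?_) i
      · change z < q
        omega
      · exact hz j
    · rw [Fin.prod_cons]
      have e1 : f * (q * ∏ i, p i) = q * N := by rw [hN]; ring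
      rw [e1]
      have hpf : (q * N).primeFactors = insert q N.primeFactors := by
        rw [Nat.primeFactors_mul hqp.ne_zero hN0.ne', hqp.primeFactors]
        rfl
      have hold : ∀ r ∈ N.primeFactors, jacobiSym (q : ℤ) r = 1 ∧ jacobiSym (r : ℤ) q = 1 := by
        intro r hr
        have hrp : r.Prime := Nat.prime_of_mem_primeFactors hr
        have hrd : r ∣ N := Nat.dvd_of_mem_primeFactors hr
        have hr8 := hAd.m8 r hr
        have h1 : jacobiSym (q : ℤ) r = 1 := by
          have h2 : q ≡ 1 [MOD r] := hqN.of_dvd hrd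
          rw [jacobiSym.mod_left' (a₁ := (q : ℤ)) (a₂ := 1) (b := r) ?_, jacobiSym.one_left]
          have h3 : (q : ℤ) ≡ (1 : ℕ) [ZMOD r] := (Int.natCast_modEq_iff).2 h2
          exact_mod_cast h3
        refine ⟨h1, ?_⟩
        rw [jacobiSym.quadratic_reciprocity_one_mod_four (by omega)
          (hqp.odd_of_ne_two (by rintro rfl; omega))]
        exact h1
      refine ⟨?_, ?_, ?_⟩
      · exact (Nat.squarefree_mul hcop).2 ⟨hqp.squarefree, hAd.sqf⟩
      · intro r hr
        rw [hpf, mem_insert] at hr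
        rcases hr with rfl | hr
        · exact hq8
        · exact hAd.m8 r hr
      · intro r hr r' hr' hne
        rw [hpf, mem_insert] at hr hr'
        rcases hr with rfl | hr
        · rcases hr' with rfl | hr'
          · exact absurd rfl hne
          · exact (hold r' hr').1
        · rcases hr' with rfl | hr'
          · exact (hold r hr).2
          · exact hAd.res r hr r' hr' hne
    · rw [Fin.sum_univ_succ]
      simp only [Fin.cons_zero, Fin.cons_succ]
      have h1 : 2 / ε ≤ q := by
        have h2 := Nat.le_ceil (2 / ε)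
        have h3 : ((⌈2 / ε⌉₊ : ℕ) : ℝ) ≤ q := by exact_mod_cast (by omega : ⌈2 / ε⌉₊ ≤ q)
        linarith
      have hq0 : (0 : ℝ) < q := by exact_mod_cast hqp.pos
      have h4 : 1 / (q : ℝ) ≤ ε / 2 := by
        rw [div_le_iff₀ hq0]
        rw [div_le_iff₀ hε] at h1
        linarith
      linarith

end Pool.Agent.Y388.QK
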